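import Mathlib
import Pool.Agent.Helper563.Dom.Berg

set_option autoImplicit false

namespace Pool.Agent.Q72.BohrH
open MeasureTheory Filter Topology Complex ComplexConjugate Metric Finset
open Pool.Agent.H563Dom (IsPS)

/-- Parseval for polynomials on a circle. -/
lemma parseval_fin (p : ℕ → ℂ) (r : ℝ) (N : ℕ) :
    Real.circleAverage (fun z => ‖∑ n ∈ range N, p n * z ^ n‖ ^ 2) 0 r
      = ∑ n ∈ range N, ‖p n‖ ^ 2 * (r ^ 2) ^ n := by
  set P : Polynomial ℂ := ∑ n ∈ range N, Polynomial.monomial n (p n * (r : ℂ) ^ n) with hP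
  have hcoef : ∀ n, P.coeff n = if n < N then p n * (r : ℂ) ^ n else 0 := by
    intro n
    rw [hP, Polynomial.finsetSum_coeff]
    simp only [Polynomial.coeff_monomial]
    by_cases hn : n < N
    · rw [Finset.sum_eq_single n]
      · simp [hn]
      · intro m _ hm; simp [hm]
      · intro h; simp [Finset.mem_range, hn] at h
    · rw [if_neg hn]
      apply Finset.sum_eq_zero
      intro m hm
      have : m ≠ n := by
        intro h; subst h; exact hn (Finset.mem_range.1 hm)
      simp [this]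
  have hev : ∀ z : ℂ, P.eval z = ∑ n ∈ range N, p n * ((r : ℂ) * z) ^ n := by
    intro z
    rw [hP, Polynomial.eval_finsetSum]
    refine Finset.sum_congr rfl fun n _ => ?_
    rw [Polynomial.eval_monomial, mul_pow]; ring
  have h1 := P.sum_sq_norm_coeff_eq_circleAverage
  have h2 : Real.circleAverage (fun z => ‖∑ n ∈ range N, p n * z ^ n‖ ^ 2) 0 r
      = Real.circleAverage (fun θ ↦ ‖P.eval θ‖ ^ 2) 0 1 := by
    unfold Real.circleAverage
    congr 1
    refine intervalIntegral.integral_congr fun θ _ => ?_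
    simp only [hev]
    have : (r : ℂ) * circleMap 0 1 θ = circleMap 0 r θ := by
      simp [circleMap]
    rw [this]
  rw [h2, ← h1]
  have h3 : ∑ i ∈ P.support, ‖P.coeff i‖ ^ 2 = ∑ i ∈ range N, ‖P.coeff i‖ ^ 2 := by
    refine Finset.sum_subset ?_ ?_
    · intro i hi
      rw [Polynomial.mem_support_iff, hcoef] at hi
      rw [Finset.mem_range]
      by_contra hc
      exact hi (if_neg hc)
    · intro i _ hi
      rw [Polynomial.notMem_support_iff] at hi
      rw [hi]; simp
  rw [h3]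
  refine Finset.sum_congr rfl fun n hn => ?_
  rw [hcoef, if_pos (Finset.mem_range.1 hn), norm_mul, norm_pow, Complex.norm_real, mul_pow]
  congr 1
  rw [← pow_mul, mul_comm n 2, pow_mul, Real.norm_eq_abs, sq_abs]

/-- Parseval for power series on a circle. -/
lemma parseval {a : ℕ → ℂ} {f : ℂ → ℂ} (ha : IsPS a f) {r : ℝ} (h0 : 0 ≤ r) (h1 : r < 1) :
    Tendsto (fun N : ℕ => ∑ n ∈ range N, ‖a n‖ ^ 2 * (r ^ 2) ^ n) atTop
      (𝓝 (Real.circleAverage (fun z => ‖f z‖ ^ 2) 0 r)) := by
  have hmem : ∀ θ : ℝ, ‖circleMap 0 r θ‖ = r := by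
    intro θ
    rw [norm_circleMap_zero, abs_of_nonneg h0]
  have hs := ha.summable_norm h0 h1
  have key : Tendsto (fun N : ℕ => Real.circleAverage (fun z => ‖∑ n ∈ range N, a n * z ^ n‖ ^ 2) 0 r)
      atTop (𝓝 (Real.circleAverage (fun z => ‖f z‖ ^ 2) 0 r)) := by
    unfold Real.circleAverage
    apply Tendsto.const_smul
    apply intervalIntegral.tendsto_integral_filter_of_dominated_convergence
      (fun _ => (∑' n, ‖a n‖ * r ^ n) ^ 2)
    · filter_upwards with N
      apply Continuous.aestronglyMeasurable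
      fun_prop
    · filter_upwards with N
      filter_upwards with θ _
      rw [Real.norm_of_nonneg (by positivity)]
      apply pow_le_pow_left₀ (norm_nonneg _)
      calc ‖∑ n ∈ range N, a n * (circleMap 0 r θ) ^ n‖
          ≤ ∑ n ∈ range N, ‖a n * (circleMap 0 r θ) ^ n‖ := norm_sum_le _ _
        _ = ∑ n ∈ range N, ‖a n‖ * r ^ n := by
            refine Finset.sum_congr rfl fun n _ => ?_
            rw [norm_mul, norm_pow, hmem]
        _ ≤ _ := hs.sum_le_tsum _ (fun n _ => by positivity)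
    · exact intervalIntegrable_const
    · filter_upwards with θ _
      have hz : circleMap 0 r θ ∈ ball (0 : ℂ) 1 := by
        rw [mem_ball_zero_iff, hmem]; exact h1
      exact ((ha _ hz).tendsto_sum_nat.norm).pow 2
  refine key.congr ?_
  intro N
  exact parseval_fin a r N

lemma partial_le {a : ℕ → ℂ} {f : ℂ → ℂ} (ha : IsPS a f) {r : ℝ} (h0 : 0 ≤ r) (h1 : r < 1)
    (N : ℕ) :
    ∑ n ∈ range N, ‖a n‖ ^ 2 * (r ^ 2) ^ n ≤ Real.circleAverage (fun z => ‖f z‖ ^ 2) 0 r := by
  refine ge_of_tendsto (parseval ha h0 h1) ?_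
  filter_upwards [eventually_ge_atTop N] with M hM
  exact Finset.sum_le_sum_of_subset_of_nonneg (Finset.range_mono hM) fun i _ _ => by positivity

lemma IsPS_add {a b : ℕ → ℂ} {f g : ℂ → ℂ} (ha : IsPS a f) (hb : IsPS b g) :
    IsPS (fun n => a n + b n) (fun z => f z + g z) := by
  intro z hz
  have := (ha z hz).add (hb z hz)
  refine this.congr_fun fun n => ?_
  ring

lemma IsPS_smul {a : ℕ → ℂ} {f : ℂ → ℂ} (c : ℂ) (ha : IsPS a f) :
    IsPS (fun n => c * a n) (fun z => c * f z) := by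
  intro z hz
  have := (ha z hz).mul_left c
  refine this.congr_fun fun n => ?_
  ring

lemma IsPS_const (c : ℂ) : IsPS (fun n => if n = 0 then c else 0) (fun _ => c) := by
  intro z _
  have := hasSum_single (f := fun n : ℕ => (if n = 0 then c else 0) * z ^ n) 0 (by
    intro n hn; simp [hn])
  simpa using this

/-- Cauchy product. -/
lemma IsPS_mul {a b : ℕ → ℂ} {f g : ℂ → ℂ} (ha : IsPS a f) (hb : IsPS b g) :
    IsPS (fun n => ∑ kl ∈ Finset.HasAntidiagonal.antidiagonal n, a kl.1 * b kl.2) (fun z => f z * g z) := by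
  intro z hz
  have hz' : ‖z‖ < 1 := by simpa using hz
  have h1 : Summable fun n => ‖a n * z ^ n‖ := by
    refine (ha.summable_norm (norm_nonneg z) hz').congr fun n => ?_
    rw [norm_mul, norm_pow]
  have h2 : Summable fun n => ‖b n * z ^ n‖ := by
    refine (hb.summable_norm (norm_nonneg z) hz').congr fun n => ?_
    rw [norm_mul, norm_pow]
  have h3 := tsum_mul_tsum_eq_tsum_sum_antidiagonal_of_summable_norm h1 h2
  rw [(ha z hz).tsum_eq, (hb z hz).tsum_eq] at h3
  have h4 := (summable_norm_sum_mul_antidiagonal_of_summable_norm h1 h2).of_norm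
  have h5 : (fun n => ∑ kl ∈ Finset.HasAntidiagonal.antidiagonal n, a kl.1 * z ^ kl.1 * (b kl.2 * z ^ kl.2)) =
      fun n => (∑ kl ∈ Finset.HasAntidiagonal.antidiagonal n, a kl.1 * b kl.2) * z ^ n := by
    funext n
    rw [Finset.sum_mul]
    refine Finset.sum_congr rfl fun kl hkl => ?_
    rw [← Finset.HasAntidiagonal.mem_antidiagonal.1 hkl, pow_add]; ring
  rw [h5] at h3 h4
  change HasSum (fun n => (∑ kl ∈ Finset.HasAntidiagonal.antidiagonal n, a kl.1 * b kl.2) * z ^ n) (f z * g z)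
  rw [h3]
  exact h4.hasSum

/-- A bounded quotient of analytic functions extends. -/
lemma exists_quot {H G : ℂ → ℂ} (hH : DifferentiableOn ℂ H (ball 0 1))
    (hG : DifferentiableOn ℂ G (ball 0 1)) {k : ℝ} (hk : 0 ≤ k)
    (hGH : ∀ z ∈ ball (0 : ℂ) 1, ‖G z‖ ≤ k * ‖H z‖) :
    ∃ ω : ℂ → ℂ, DifferentiableOn ℂ ω (ball 0 1) ∧ (∀ z ∈ ball (0 : ℂ) 1, ‖ω z‖ ≤ k) ∧
      ∀ z ∈ ball (0 : ℂ) 1, G z = ω z * H z := by
  have hHa : AnalyticOnNhd ℂ H (ball 0 1) := hH.analyticOnNhd isOpen_ball
  by_cases h0 : ∀ z ∈ ball (0 : ℂ) 1, H z = 0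
  · refine ⟨fun _ => 0, differentiableOn_const _, fun z _ => by simpa using hk, fun z hz => ?_⟩
    have := hGH z hz
    rw [h0 z hz, norm_zero, mul_zero] at this
    simpa using this
  · push Not at h0
    obtain ⟨z₁, hz₁, hHz₁⟩ := h0
    have hne : ∀ z ∈ ball (0 : ℂ) 1, ∀ᶠ w in 𝓝[≠] z, H w ≠ 0 := by
      intro z hz
      rcases (hHa z hz).eventually_eq_zero_or_eventually_ne_zero with h | h
      · exfalso
        have := hHa.eqOn_zero_of_preconnected_of_eventuallyEq_zero
          (convex_ball (0 : ℂ) 1).isPreconnected hz h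
        exact hHz₁ (this hz₁)
      · exact h
    set Q : ℂ → ℂ := fun z => G z / H z with hQ
    set ω : ℂ → ℂ := fun z => limUnder (𝓝[≠] z) Q with hω
    have hQd : ∀ w ∈ ball (0 : ℂ) 1, H w ≠ 0 → DifferentiableAt ℂ Q w := by
      intro w hw hHw
      have h1 := hH.differentiableAt (isOpen_ball.mem_nhds hw)
      have h2 := hG.differentiableAt (isOpen_ball.mem_nhds hw)
      exact h2.div h1 hHw
    have hQω : ∀ w ∈ ball (0 : ℂ) 1, H w ≠ 0 → ω w = Q w := by
      intro w hw hHw
      have := (hQd w hw hHw).continuousAt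
      exact (this.tendsto.mono_left nhdsWithin_le_nhds).limUnder_eq
    have hQb : ∀ w ∈ ball (0 : ℂ) 1, ‖Q w‖ ≤ k := by
      intro w hw
      by_cases hHw : H w = 0
      · simp [hQ, hHw, hk]
      · rw [hQ]
        simp only [norm_div]
        rw [div_le_iff₀ (norm_pos_iff.2 hHw)]
        exact hGH w hw
    -- local description
    have hloc : ∀ z ∈ ball (0 : ℂ) 1, ∃ U ∈ 𝓝 z, U ⊆ ball (0 : ℂ) 1 ∧
        (∀ w ∈ U, w ≠ z → H w ≠ 0) ∧ DifferentiableOn ℂ ω U := by
      intro z hz
      have h1 := hne z hz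
      rw [eventually_nhdsWithin_iff] at h1
      obtain ⟨U, hU, hUo, hzU⟩ := _root_.eventually_nhds_iff.1 (h1.and (isOpen_ball.mem_nhds hz))
      have hUn : U ∈ 𝓝 z := hUo.mem_nhds hzU
      have hQdU : DifferentiableOn ℂ Q (U \ {z}) := by
        intro w hw
        have h2 := hU w hw.1
        exact (hQd w h2.2 (h2.1 hw.2)).differentiableWithinAt
      have hb : BddAbove (norm ∘ Q '' (U \ {z})) := by
        refine ⟨k, ?_⟩
        rintro _ ⟨w, hw, rfl⟩
        exact hQb w (hU w hw.1).2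
      have h3 := Complex.differentiableOn_update_limUnder_of_bddAbove hUn hQdU hb
      refine ⟨U, hUn, fun w hw => (hU w hw).2, fun w hw hwz => (hU w hw).1 hwz, ?_⟩
      refine h3.congr fun w hw => ?_
      by_cases hwz : w = z
      · subst hwz; simp [hω]
      · rw [Function.update_of_ne hwz]
        exact hQω w (hU w hw).2 ((hU w hw).1 hwz)
    have hωd : DifferentiableOn ℂ ω (ball 0 1) := by
      intro z hz
      obtain ⟨U, hU, -, -, hd⟩ := hloc z hz
      exact ((hd z (mem_of_mem_nhds hU)).differentiableAt hU).differentiableWithinAt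
    have hev : ∀ z ∈ ball (0 : ℂ) 1, ∀ᶠ w in 𝓝[≠] z, w ∈ ball (0 : ℂ) 1 ∧ H w ≠ 0 := by
      intro z hz
      have h1 : ∀ᶠ w in 𝓝[≠] z, w ∈ ball (0 : ℂ) 1 :=
        nhdsWithin_le_nhds (isOpen_ball.mem_nhds hz)
      exact h1.and (hne z hz)
    have hωc : ∀ z ∈ ball (0 : ℂ) 1, ContinuousAt ω z := fun z hz =>
      (hωd.differentiableAt (isOpen_ball.mem_nhds hz)).continuousAt
    refine ⟨ω, hωd, fun z hz => ?_, fun z hz => ?_⟩
    · refine le_of_tendsto ((hωc z hz).norm.tendsto.mono_left nhdsWithin_le_nhds :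
        Tendsto (fun w => ‖ω w‖) (𝓝[≠] z) _) ?_
      filter_upwards [hev z hz] with w hw
      rw [hQω w hw.1 hw.2]
      exact hQb w hw.1
    · have hHc := (hH.differentiableAt (isOpen_ball.mem_nhds hz)).continuousAt
      have hGc := (hG.differentiableAt (isOpen_ball.mem_nhds hz)).continuousAt
      have h1 : Tendsto (fun w => ω w * H w) (𝓝[≠] z) (𝓝 (ω z * H z)) :=
        ((hωc z hz).mul hHc).tendsto.mono_left nhdsWithin_le_nhds
      have h2 : Tendsto G (𝓝[≠] z) (𝓝 (G z)) := hGc.tendsto.mono_left nhdsWithin_le_nhds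
      refine tendsto_nhds_unique h2 (h1.congr' ?_)
      filter_upwards [hev z hz] with w hw
      rw [hQω w hw.1 hw.2, hQ]
      simp only
      rw [div_mul_cancel₀ _ hw.2]

end Pool.Agent.Q72.BohrH
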