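import Mathlib
import Pool.Agent.Q72.BohrH.Basic

set_option autoImplicit false

namespace Pool.Agent.Q72.BohrH
open MeasureTheory Filter Topology Complex ComplexConjugate Metric Finset
open Pool.Agent.H563Dom (IsPS)

lemma ci {f : ℂ → ℂ} (hf : DifferentiableOn ℂ f (ball 0 1)) {r : ℝ} (h0 : 0 ≤ r) (h1 : r < 1) :
    CircleIntegrable (fun z => ‖f z‖ ^ 2) 0 r := by
  apply ContinuousOn.circleIntegrable h0
  refine ((hf.continuousOn.mono ?_).norm).pow 2
  intro z hz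
  rw [mem_sphere_zero_iff_norm] at hz
  rw [mem_ball_zero_iff, hz]; exact h1

lemma avg_le {f g : ℂ → ℂ} (hf : DifferentiableOn ℂ f (ball 0 1))
    (hg : DifferentiableOn ℂ g (ball 0 1)) {k : ℝ} (hk : 0 ≤ k)
    {r : ℝ} (h0 : 0 ≤ r) (h1 : r < 1) (h : ∀ z, ‖z‖ = r → ‖f z‖ ≤ k * ‖g z‖) :
    Real.circleAverage (fun z => ‖f z‖ ^ 2) 0 r ≤
      k ^ 2 * Real.circleAverage (fun z => ‖g z‖ ^ 2) 0 r := by
  have h2 := Real.circleAverage_fun_smul (a := k ^ 2) (f := fun z : ℂ => ‖g z‖ ^ 2)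
    (c := 0) (R := r)
  simp only [smul_eq_mul] at h2
  rw [← h2]
  apply Real.circleAverage_mono (ci hf h0 h1)
  · have := (ci hg h0 h1).const_fun_smul (a := k ^ 2)
    simpa using this
  · intro z hz
    rw [mem_sphere_zero_iff_norm, abs_of_nonneg h0] at hz
    have := h z hz
    calc ‖f z‖ ^ 2 ≤ (k * ‖g z‖) ^ 2 := by gcongr
      _ = k ^ 2 * ‖g z‖ ^ 2 := by ring

/-- Schwarz–Pick at the origin. -/
lemma pick {φ : ℂ → ℂ} (hφ : DifferentiableOn ℂ φ (ball 0 1))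
    (hb : ∀ z ∈ ball (0 : ℂ) 1, ‖φ z‖ ≤ 1) {z : ℂ} (hz : ‖z‖ < 1) :
    ‖φ z - φ 0‖ ≤ ‖z‖ * ‖1 - conj (φ 0) * φ z‖ := by
  have h00 : (0 : ℂ) ∈ ball (0 : ℂ) 1 := by simp
  have hzb : z ∈ ball (0 : ℂ) 1 := by simpa using hz
  rcases (hb 0 h00).lt_or_eq with hc | hc
  · have hden : ∀ w ∈ ball (0 : ℂ) 1, 1 - conj (φ 0) * φ w ≠ 0 := by
      intro w hw h
      have h1 : conj (φ 0) * φ w = 1 := by linear_combination -h
      have h2 : ‖conj (φ 0) * φ w‖ = 1 := by rw [h1]; simp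
      rw [norm_mul, RCLike.norm_conj] at h2
      have := hb w hw
      nlinarith [norm_nonneg (φ 0), norm_nonneg (φ w)]
    have hd : DifferentiableOn ℂ (fun w => (φ w - φ 0) / (1 - conj (φ 0) * φ w)) (ball 0 1) :=
      (hφ.sub_const _).div ((hφ.const_mul _).const_sub _) hden
    have hm : Set.MapsTo (fun w => (φ w - φ 0) / (1 - conj (φ 0) * φ w)) (ball 0 1)
        (closedBall 0 1) := by
      intro w hw
      rw [mem_closedBall_zero_iff, norm_div, div_le_one (norm_pos_iff.2 (hden w hw))]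
      have h1 := hb w hw
      rw [← sq_le_sq₀ (norm_nonneg _) (norm_nonneg _)]
      have e1 : ‖1 - conj (φ 0) * φ w‖ ^ 2 - ‖φ w - φ 0‖ ^ 2 =
          (1 - ‖φ 0‖ ^ 2) * (1 - ‖φ w‖ ^ 2) := by
        simp only [← Complex.normSq_eq_norm_sq, Complex.normSq_apply, Complex.sub_re,
          Complex.sub_im, Complex.mul_re, Complex.mul_im, Complex.conj_re, Complex.conj_im,
          Complex.one_re, Complex.one_im]
        ring
      have h2 : 0 ≤ (1 - ‖φ 0‖ ^ 2) * (1 - ‖φ w‖ ^ 2) := by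
        apply mul_nonneg <;> nlinarith [norm_nonneg (φ 0), norm_nonneg (φ w)]
      linarith
    have h3 := Complex.norm_le_norm_of_mapsTo_ball hd hm (by simp) hz
    simp only [norm_div] at h3
    rwa [div_le_iff₀ (norm_pos_iff.2 (hden z hzb))] at h3
  · have hmax : IsMaxOn (norm ∘ φ) (ball (0 : ℂ) 1) 0 := by
      intro w hw
      simp only [Function.comp_apply, Set.mem_ofPred_eq]
      rw [hc]; exact hb w hw
    have := Complex.eqOn_of_isPreconnected_of_isMaxOn_norm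
      (convex_ball (0 : ℂ) 1).isPreconnected isOpen_ball hφ h00 hmax hzb
    rw [this]
    simp only [Function.const_apply, sub_self, norm_zero]
    positivity

/-- Coefficient bound of Ricci / Bombieri. -/
lemma ricci_lt {φ : ℂ → ℂ} {a : ℕ → ℂ} (ha : IsPS a φ)
    (hb : ∀ z ∈ ball (0 : ℂ) 1, ‖φ z‖ ≤ 1) {r : ℝ} (h0 : 0 ≤ r) (h1 : r < 1) (N : ℕ) :
    (1 - ‖a 0‖ ^ 2 * r ^ 2) * ∑ n ∈ range N, ‖a (n + 1)‖ ^ 2 * (r ^ 2) ^ (n + 1) ≤
      r ^ 2 * (1 - ‖a 0‖ ^ 2) ^ 2 := by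
  have hφ := ha.differentiableOn
  have h00 : (0 : ℂ) ∈ ball (0 : ℂ) 1 := by simp
  have ha0 : φ 0 = a 0 := by
    have := ha 0 h00
    have h2 := hasSum_single (f := fun n : ℕ => a n * (0 : ℂ) ^ n) 0 (by
      intro n hn; simp [hn])
    have := this.unique h2
    simpa using this
  have hc1 : ‖a 0‖ ≤ 1 := ha0 ▸ hb 0 h00
  -- the two functions
  have hF : IsPS (fun n => if n = 0 then 0 else a n) (fun z => φ z - a 0) := by
    have h := IsPS_add ha (IsPS_const (-a 0))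
    have e1 : (fun n => a n + (if n = 0 then -a 0 else 0)) = fun n => if n = 0 then 0 else a n := by
      funext n
      by_cases hn : n = 0 <;> simp [hn]
    rw [e1] at h
    intro z hz
    have := h z hz
    simpa [sub_eq_add_neg] using this
  have hG : IsPS (fun n => if n = 0 then 1 - conj (a 0) * a 0 else -(conj (a 0) * a n))
      (fun z => 1 - conj (a 0) * φ z) := by
    have h := IsPS_add (IsPS_smul (-conj (a 0)) ha) (IsPS_const 1)
    have e1 : (fun n => -conj (a 0) * a n + (if n = 0 then (1 : ℂ) else 0)) =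
        fun n => if n = 0 then 1 - conj (a 0) * a 0 else -(conj (a 0) * a n) := by
      funext n
      by_cases hn : n = 0
      · simp [hn]; ring
      · simp [hn]
    rw [e1] at h
    intro z hz
    have := h z hz
    have e2 : (-conj (a 0) * φ z + 1) = 1 - conj (a 0) * φ z := by ring
    simp only at this ⊢
    rw [← e2]; exact this
  set A := Real.circleAverage (fun z => ‖φ z - a 0‖ ^ 2) 0 r with hA
  set B := Real.circleAverage (fun z => ‖1 - conj (a 0) * φ z‖ ^ 2) 0 r with hB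
  have hAB : A ≤ r ^ 2 * B := by
    refine avg_le hF.differentiableOn hG.differentiableOn h0 h0 h1 ?_
    intro z hz
    have := pick hφ hb (z := z) (by rw [hz]; exact h1)
    rw [ha0, hz] at this
    exact this
  have hAlim := (parseval hF h0 h1).comp (tendsto_add_atTop_nat 1)
  have hBlim := (parseval hG h0 h1).comp (tendsto_add_atTop_nat 1)
  set S : ℕ → ℝ := fun N => ∑ n ∈ range N, ‖a (n + 1)‖ ^ 2 * (r ^ 2) ^ (n + 1) with hS
  have e1 : ((fun N : ℕ => ∑ n ∈ range N, ‖(if n = 0 then 0 else a n)‖ ^ 2 * (r ^ 2) ^ n) ∘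
      fun N => N + 1) = S := by
    funext M
    simp only [Function.comp_apply, Finset.sum_range_succ', hS]
    simp
  have e2 : ((fun N : ℕ => ∑ n ∈ range N, ‖(if n = 0 then 1 - conj (a 0) * a 0 else
      -(conj (a 0) * a n))‖ ^ 2 * (r ^ 2) ^ n) ∘
      fun N => N + 1) = fun N => (1 - ‖a 0‖ ^ 2) ^ 2 + ‖a 0‖ ^ 2 * S N := by
    funext M
    have e3 : (1 : ℂ) - conj (a 0) * a 0 = ((1 - ‖a 0‖ ^ 2 : ℝ) : ℂ) := by
      rw [Complex.conj_mul']; push_cast; ring
    simp only [Function.comp_apply, Finset.sum_range_succ', hS]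
    rw [Finset.mul_sum]
    simp only [Nat.add_eq_zero_iff, one_ne_zero, and_false, if_false, if_true, pow_zero, mul_one,
      norm_neg, norm_mul, RCLike.norm_conj]
    rw [e3, Complex.norm_real, Real.norm_eq_abs, sq_abs, add_comm]
    congr 1
    refine Finset.sum_congr rfl fun n _ => ?_
    ring
  rw [e1] at hAlim
  rw [e2] at hBlim
  have hB2 : B = (1 - ‖a 0‖ ^ 2) ^ 2 + ‖a 0‖ ^ 2 * A :=
    tendsto_nhds_unique hBlim (((hAlim.const_mul _).const_add _))
  have hSle : S N ≤ A := by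
    refine ge_of_tendsto hAlim ?_
    filter_upwards [eventually_ge_atTop N] with M hM
    exact Finset.sum_le_sum_of_subset_of_nonneg (Finset.range_mono hM)
      fun i _ _ => by positivity
  have hpos : 0 ≤ 1 - ‖a 0‖ ^ 2 * r ^ 2 := by
    have h3 : ‖a 0‖ ^ 2 ≤ 1 := by nlinarith [norm_nonneg (a 0)]
    have h4 : r ^ 2 ≤ 1 := by nlinarith
    nlinarith [sq_nonneg r, sq_nonneg ‖a 0‖]
  calc (1 - ‖a 0‖ ^ 2 * r ^ 2) * S N ≤ (1 - ‖a 0‖ ^ 2 * r ^ 2) * A := by gcongr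
    _ ≤ r ^ 2 * (1 - ‖a 0‖ ^ 2) ^ 2 := by
        rw [hB2] at hAB
        linarith

lemma ricci {φ : ℂ → ℂ} {a : ℕ → ℂ} (ha : IsPS a φ)
    (hb : ∀ z ∈ ball (0 : ℂ) 1, ‖φ z‖ ≤ 1) {t : ℝ} (h0 : 0 ≤ t) (h1 : t ≤ 1) (N : ℕ) :
    (1 - ‖a 0‖ ^ 2 * t) * ∑ n ∈ range N, ‖a (n + 1)‖ ^ 2 * t ^ (n + 1) ≤
      t * (1 - ‖a 0‖ ^ 2) ^ 2 := by
  have key : ∀ s : ℝ, 0 ≤ s → s < 1 →
      (1 - ‖a 0‖ ^ 2 * s) * ∑ n ∈ range N, ‖a (n + 1)‖ ^ 2 * s ^ (n + 1) ≤
      s * (1 - ‖a 0‖ ^ 2) ^ 2 := by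
    intro s hs0 hs1
    have := ricci_lt ha hb (r := Real.sqrt s) (Real.sqrt_nonneg s)
      (by rw [Real.sqrt_lt' one_pos]; simpa using hs1) N
    rwa [Real.sq_sqrt hs0] at this
  rcases h1.lt_or_eq with h1 | h1
  · exact key t h0 h1
  · subst h1
    have hL : Continuous fun s : ℝ => (1 - ‖a 0‖ ^ 2 * s) *
        ∑ n ∈ range N, ‖a (n + 1)‖ ^ 2 * s ^ (n + 1) := by fun_prop
    have hR : Continuous fun s : ℝ => s * (1 - ‖a 0‖ ^ 2) ^ 2 := by fun_prop
    refine le_of_tendsto_of_tendsto ((hL.tendsto 1).mono_left nhdsWithin_le_nhds)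
      ((hR.tendsto 1).mono_left (nhdsWithin_le_nhds (s := Set.Iio 1))) ?_
    filter_upwards [Ioo_mem_nhdsLT (show (0 : ℝ) < 1 by norm_num)] with s hs
    exact key s hs.1.le hs.2

/-- Truncated majorisation. -/
lemma major {C D : ℕ → ℂ} {H G : ℂ → ℂ} (hC : IsPS C H) (hD : IsPS D G) {k : ℝ} (hk : 0 ≤ k)
    (hGH : ∀ z ∈ ball (0 : ℂ) 1, ‖G z‖ ≤ k * ‖H z‖) (N : ℕ) :
    ∑ n ∈ range N, ‖D n‖ ^ 2 ≤ k ^ 2 * ∑ n ∈ range N, ‖C n‖ ^ 2 := by
  obtain ⟨ω, hωd, hωb, hω⟩ := exists_quot hC.differentiableOn hD.differentiableOn hk hGH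
  obtain ⟨w, hw⟩ := Pool.Agent.H563Dom.exists_isPS hωd
  set C' : ℕ → ℂ := fun n => if n < N then C n else 0 with hC'
  set P : ℂ → ℂ := fun z => ∑ n ∈ range N, C n * z ^ n with hP
  have hPS : IsPS C' P := by
    intro z _
    have h1 : HasSum (fun n => C' n * z ^ n) (∑ n ∈ range N, C' n * z ^ n) :=
      hasSum_sum_of_ne_finset_zero (f := fun n => C' n * z ^ n) (s := range N) (by
      intro n hn
      have : ¬ n < N := by simpa using hn
      simp [hC', this])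
    have h2 : ∑ n ∈ range N, C' n * z ^ n = P z := by
      refine Finset.sum_congr rfl fun n hn => ?_
      have : n < N := by simpa using hn
      simp [hC', this]
    rw [h2] at h1
    exact h1
  have hE := IsPS_mul hw hPS
  have hE' := IsPS_mul hw hC
  have hDE : D = fun n => ∑ kl ∈ Finset.HasAntidiagonal.antidiagonal n, w kl.1 * C kl.2 := by
    refine hD.unique ?_
    intro z hz
    rw [hω z hz]
    exact hE' z hz
  have hlow : ∀ n < N, D n = ∑ kl ∈ Finset.HasAntidiagonal.antidiagonal n, w kl.1 * C' kl.2 := by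
    intro n hn
    rw [hDE]
    refine Finset.sum_congr rfl fun kl hkl => ?_
    have h1 := Finset.HasAntidiagonal.mem_antidiagonal.1 hkl
    have h2 : kl.2 < N := by omega
    simp [hC', h2]
  have key : ∀ r : ℝ, 0 ≤ r → r < 1 →
      ∑ n ∈ range N, ‖D n‖ ^ 2 * (r ^ 2) ^ n ≤ k ^ 2 * ∑ n ∈ range N, ‖C n‖ ^ 2 * (r ^ 2) ^ n := by
    intro r h0 h1
    have h2 := partial_le hE h0 h1 N
    have h3 : ∑ n ∈ range N, ‖D n‖ ^ 2 * (r ^ 2) ^ n =
        ∑ n ∈ range N, ‖∑ kl ∈ Finset.HasAntidiagonal.antidiagonal n, w kl.1 * C' kl.2‖ ^ 2 *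
          (r ^ 2) ^ n := by
      refine Finset.sum_congr rfl fun n hn => ?_
      rw [hlow n (by simpa using hn)]
    rw [h3]
    refine h2.trans ?_
    have h4 := avg_le hE.differentiableOn hPS.differentiableOn hk h0 h1 (by
      intro z hz
      have hz' : z ∈ ball (0 : ℂ) 1 := by rw [mem_ball_zero_iff, hz]; exact h1
      rw [norm_mul]
      exact mul_le_mul_of_nonneg_right (hωb z hz') (norm_nonneg _))
    refine h4.trans ?_
    rw [hP, parseval_fin]
  have hL : Continuous fun r : ℝ => ∑ n ∈ range N, ‖D n‖ ^ 2 * (r ^ 2) ^ n := by fun_prop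
  have hR : Continuous fun r : ℝ => k ^ 2 * ∑ n ∈ range N, ‖C n‖ ^ 2 * (r ^ 2) ^ n := by
    fun_prop
  have := le_of_tendsto_of_tendsto ((hL.tendsto 1).mono_left nhdsWithin_le_nhds)
      ((hR.tendsto 1).mono_left (nhdsWithin_le_nhds (s := Set.Iio 1))) (by
    filter_upwards [Ioo_mem_nhdsLT (show (0 : ℝ) < 1 by norm_num)] with s hs
    exact key s hs.1.le hs.2)
  simpa using this

lemma abel (u w : ℕ → ℝ) (hS : ∀ N, 0 ≤ ∑ n ∈ range N, u n) (hw : ∀ n, w (n + 1) ≤ w n)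
    (hw0 : ∀ n, 0 ≤ w n) (N : ℕ) : 0 ≤ ∑ n ∈ range N, w n * u n := by
  have key : ∀ N, w N * ∑ n ∈ range N, u n ≤ ∑ n ∈ range N, w n * u n := by
    intro N
    induction N with
    | zero => simp
    | succ M ih =>
      rw [Finset.sum_range_succ (fun n => w n * u n)]
      calc w (M + 1) * ∑ n ∈ range (M + 1), u n ≤ w M * ∑ n ∈ range (M + 1), u n := by
            gcongr
            · exact hS _
            · exact hw M
        _ = w M * ∑ n ∈ range M, u n + w M * u M := by rw [Finset.sum_range_succ]; ring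
        _ ≤ _ := by gcongr
  exact (mul_nonneg (hw0 N) (hS N)).trans (key N)

end Pool.Agent.Q72.BohrH
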