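import Mathlib
import Pool.Agent.Q72.BohrH.Core

set_option autoImplicit false

namespace Pool.Agent.Q72.BohrH
open MeasureTheory Filter Topology Complex ComplexConjugate Metric Finset
open Pool.Agent.H563Dom (IsPS)

/-- weight sequence -/
noncomputable def W (l μ q : ℝ) (n : ℕ) : ℝ := if n = 0 then l else μ * q ^ (n - 1) / ((n : ℝ) + 1) ^ 2

lemma W_pos {l μ q : ℝ} (hl : 0 < l) (hμ : 0 < μ) (hq : 0 < q) (n : ℕ) : 0 < W l μ q n := by
  unfold W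
  split_ifs
  · exact hl
  · positivity

lemma W_anti {l μ q : ℝ} (hμ : 0 < μ) (hq : 0 < q) (hq1 : q ≤ 1) (hlμ : μ / 4 ≤ l)
    (n : ℕ) : W l μ q (n + 1) ≤ W l μ q n := by
  unfold W
  rw [if_neg (Nat.succ_ne_zero n)]
  rcases Nat.eq_zero_or_pos n with hn | hn
  · subst hn
    simp only [if_true]
    norm_num
    linarith
  · rw [if_neg hn.ne']
    obtain ⟨m, rfl⟩ : ∃ m, n = m + 1 := ⟨n - 1, by omega⟩
    simp only [Nat.add_sub_cancel]
    push_cast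
    have h1 : q ^ (m + 1) ≤ q ^ m := pow_le_pow_of_le_one hq.le hq1 (by omega)
    have h2 : ((m : ℝ) + 1 + 1) ^ 2 ≤ ((m : ℝ) + 1 + 1 + 1) ^ 2 := by
      apply pow_le_pow_left₀ (by positivity); linarith
    apply div_le_div₀ (by positivity) (by gcongr) (by positivity) h2

lemma bound {α β : ℕ → ℝ} {k : ℝ} {r l μ q : ℝ} (hr : 0 < r)
    (hl : 0 < l) (hμ : 0 < μ) (hq : 0 < q) (hq1 : q ≤ 1) (hrq : r ^ 2 < q) (hlμ : μ / 4 ≤ l)
    (hcq : (α 0) ^ 2 * q < 1)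
    (hmaj : ∀ N, ∑ n ∈ range N, (((n : ℝ) + 1) * β n) ^ 2 ≤
      k ^ 2 * ∑ n ∈ range N, (((n : ℝ) + 1) * α n) ^ 2)
    (hric : ∀ N, (1 - (α 0) ^ 2 * q) * ∑ n ∈ range N, (α (n + 1)) ^ 2 * q ^ (n + 1) ≤
      q * (1 - (α 0) ^ 2) ^ 2) (N : ℕ) :
    (∑ n ∈ range (N + 1), β n * r ^ (n + 1)) ^ 2 ≤
      k ^ 2 * ((l * (α 0) ^ 2 + μ * ((1 - (α 0) ^ 2) ^ 2 / (1 - (α 0) ^ 2 * q))) *
        (r ^ 2 / l + r ^ 4 / μ * (1 - r ^ 2 / q)⁻¹)) := by
  have hW := W_pos hl hμ hq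
  -- Cauchy-Schwarz
  have h1 : (∑ n ∈ range (N + 1), β n * r ^ (n + 1)) ^ 2 ≤
      (∑ n ∈ range (N + 1), W l μ q n * (((n : ℝ) + 1) * β n) ^ 2) *
      (∑ n ∈ range (N + 1), r ^ (2 * n + 2) / (((n : ℝ) + 1) ^ 2 * W l μ q n)) := by
    apply Finset.sum_sq_le_sum_mul_sum_of_sq_le_mul
    · intro n _; have := hW n; positivity
    · intro n _; have := hW n; positivity
    · intro n _
      have := hW n
      apply le_of_eq
      field_simp
      ring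
  -- first factor
  have h2 : ∑ n ∈ range (N + 1), W l μ q n * (((n : ℝ) + 1) * β n) ^ 2 ≤
      k ^ 2 * ∑ n ∈ range (N + 1), W l μ q n * (((n : ℝ) + 1) * α n) ^ 2 := by
    have := abel (fun n => k ^ 2 * (((n : ℝ) + 1) * α n) ^ 2 - (((n : ℝ) + 1) * β n) ^ 2) (W l μ q)
      (by
        intro M
        rw [Finset.sum_sub_distrib, ← Finset.mul_sum]
        have := hmaj M
        linarith) (W_anti hμ hq hq1 hlμ) (fun n => (hW n).le) (N + 1)
    have e : ∑ n ∈ range (N + 1), W l μ q n *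
        (k ^ 2 * (((n : ℝ) + 1) * α n) ^ 2 - (((n : ℝ) + 1) * β n) ^ 2) =
        k ^ 2 * ∑ n ∈ range (N + 1), W l μ q n * (((n : ℝ) + 1) * α n) ^ 2 -
        ∑ n ∈ range (N + 1), W l μ q n * (((n : ℝ) + 1) * β n) ^ 2 := by
      rw [Finset.mul_sum, ← Finset.sum_sub_distrib]
      refine Finset.sum_congr rfl fun n _ => ?_
      ring
    rw [e] at this
    linarith
  have h3 : ∑ n ∈ range (N + 1), W l μ q n * (((n : ℝ) + 1) * α n) ^ 2 ≤
      l * (α 0) ^ 2 + μ * ((1 - (α 0) ^ 2) ^ 2 / (1 - (α 0) ^ 2 * q)) := by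
    rw [Finset.sum_range_succ']
    have e1 : ∀ n : ℕ, W l μ q (n + 1) * ((((n + 1 : ℕ) : ℝ) + 1) * α (n + 1)) ^ 2 =
        μ / q * ((α (n + 1)) ^ 2 * q ^ (n + 1)) := by
      intro n
      unfold W
      rw [if_neg (Nat.succ_ne_zero n), Nat.add_sub_cancel, pow_succ]
      have : (((n + 1 : ℕ) : ℝ) + 1) ≠ 0 := by positivity
      field_simp
      ring
    simp only [e1]
    rw [← Finset.mul_sum]
    have e2 : W l μ q 0 * ((((0 : ℕ) : ℝ) + 1) * α 0) ^ 2 = l * (α 0) ^ 2 := by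
      simp [W]
    rw [e2, add_comm]
    have h4 := hric N
    have h5 : 0 < 1 - (α 0) ^ 2 * q := by linarith
    have h6 : ∑ n ∈ range N, (α (n + 1)) ^ 2 * q ^ (n + 1) ≤
        q * (1 - (α 0) ^ 2) ^ 2 / (1 - (α 0) ^ 2 * q) := by
      rw [le_div_iff₀ h5]; linarith
    have h7 : μ / q * ∑ n ∈ range N, (α (n + 1)) ^ 2 * q ^ (n + 1) ≤
        μ / q * (q * (1 - (α 0) ^ 2) ^ 2 / (1 - (α 0) ^ 2 * q)) := by gcongr
    have e3 : μ / q * (q * (1 - (α 0) ^ 2) ^ 2 / (1 - (α 0) ^ 2 * q)) =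
        μ * ((1 - (α 0) ^ 2) ^ 2 / (1 - (α 0) ^ 2 * q)) := by
      field_simp
    rw [e3] at h7
    linarith
  -- second factor
  have h8 : ∑ n ∈ range (N + 1), r ^ (2 * n + 2) / (((n : ℝ) + 1) ^ 2 * W l μ q n) ≤
      r ^ 2 / l + r ^ 4 / μ * (1 - r ^ 2 / q)⁻¹ := by
    rw [Finset.sum_range_succ']
    have e1 : ∀ n : ℕ, r ^ (2 * (n + 1) + 2) / ((((n + 1 : ℕ) : ℝ) + 1) ^ 2 * W l μ q (n + 1)) =
        r ^ 4 / μ * (r ^ 2 / q) ^ n := by
      intro n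
      unfold W
      rw [if_neg (Nat.succ_ne_zero n), Nat.add_sub_cancel, div_pow]
      have : (((n + 1 : ℕ) : ℝ) + 1) ≠ 0 := by positivity
      field_simp
      ring
    simp only [e1]
    rw [← Finset.mul_sum]
    have e2 : r ^ (2 * 0 + 2) / ((((0 : ℕ) : ℝ) + 1) ^ 2 * W l μ q 0) = r ^ 2 / l := by
      simp [W]
    rw [e2, add_comm]
    have hx0 : 0 ≤ r ^ 2 / q := by positivity
    have hx1 : r ^ 2 / q < 1 := by rw [div_lt_one hq]; exact hrq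
    have h9 : ∑ n ∈ range N, (r ^ 2 / q) ^ n ≤ (1 - r ^ 2 / q)⁻¹ := by
      rw [← tsum_geometric_of_lt_one hx0 hx1]
      exact (summable_geometric_of_lt_one hx0 hx1).sum_le_tsum _ (fun n _ => by positivity)
    gcongr
  have h10 : 0 ≤ ∑ n ∈ range (N + 1), r ^ (2 * n + 2) / (((n : ℝ) + 1) ^ 2 * W l μ q n) :=
    Finset.sum_nonneg fun n _ => by have := hW n; positivity
  have h11 : 0 ≤ ∑ n ∈ range (N + 1), W l μ q n * (((n : ℝ) + 1) * α n) ^ 2 :=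
    Finset.sum_nonneg fun n _ => by have := hW n; positivity
  calc (∑ n ∈ range (N + 1), β n * r ^ (n + 1)) ^ 2 ≤ _ := h1
    _ ≤ (k ^ 2 * ∑ n ∈ range (N + 1), W l μ q n * (((n : ℝ) + 1) * α n) ^ 2) *
        (∑ n ∈ range (N + 1), r ^ (2 * n + 2) / (((n : ℝ) + 1) ^ 2 * W l μ q n)) := by gcongr
    _ = k ^ 2 * ((∑ n ∈ range (N + 1), W l μ q n * (((n : ℝ) + 1) * α n) ^ 2) *
        (∑ n ∈ range (N + 1), r ^ (2 * n + 2) / (((n : ℝ) + 1) ^ 2 * W l μ q n))) := by ring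
    _ ≤ _ := by gcongr

/-- derivative of a power series -/
lemma IsPS_deriv {a : ℕ → ℂ} {f : ℂ → ℂ} (ha : IsPS a f) :
    IsPS (fun n => ((n : ℂ) + 1) * a (n + 1)) (deriv f) := by
  have hf := ha.differentiableOn
  have h1 : a = fun n => ((n.factorial : ℂ))⁻¹ * iteratedDeriv n f 0 := by
    refine ha.unique ?_
    intro z hz
    have := Complex.hasSum_taylorSeries_on_ball hf hz
    refine this.congr_fun fun n => ?_
    simp only [smul_eq_mul, sub_zero]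
    ring
  intro z hz
  have := Complex.hasSum_taylorSeries_on_ball (hf.deriv isOpen_ball) hz
  refine this.congr_fun fun n => ?_
  simp only [smul_eq_mul, sub_zero, ← iteratedDeriv_succ']
  rw [h1]
  simp only
  have h2 : ((n.factorial : ℕ) : ℂ) ≠ 0 := by exact_mod_cast n.factorial_ne_zero
  have h3 : ((n : ℂ) + 1) ≠ 0 := by exact_mod_cast Nat.succ_ne_zero n
  rw [Nat.factorial_succ]
  push_cast
  field_simp

end Pool.Agent.Q72.BohrH
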