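import Mathlib
import Pool.Agent.Q72.BohrH.Core

set_option autoImplicit false

namespace Pool.Agent.Q72.BohrH
open Finset

lemma tangent {κ r : ℝ} (hκ0 : 0 < κ) (hκ1 : κ < 1) (hr : 0 < r)
    (hr2 : 32 * r ^ 2 = 7 + 10 * κ - κ ^ 2) : 2 * r - 0.465 ≤ (1 + κ) / 2 := by
  have h1 : (2 * r) ^ 2 ≤ ((1 + κ) / 2 + 0.465) ^ 2 := by
    nlinarith [sq_nonneg (κ - 0.38)]
  have h2 : 2 * r ≤ (1 + κ) / 2 + 0.465 := by
    apply le_of_sq_le_sq h1
    linarith
  linarith

lemma poly_ineq {r : ℝ} (h1 : 1 / 2 ≤ r) (h2 : r ≤ 0.7072) :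
    r ^ 2 * (2 - r) ^ 2 * (4 - 5 * r + 2 * r ^ 2) ≤ 16 * (1 - r) ^ 2 * (2 * r - 0.465) ^ 2 := by
  obtain ⟨t, rfl⟩ : ∃ t, r = 1 / 2 + t := ⟨r - 1 / 2, by ring⟩
  have ht0 : 0 ≤ t := by linarith
  have ht1 : t ≤ 0.2072 := by linarith
  nlinarith [mul_nonneg ht0 (sub_nonneg.2 ht1), mul_nonneg (mul_nonneg ht0 ht0) (sub_nonneg.2 ht1),
    mul_nonneg (mul_nonneg ht0 ht0) (mul_nonneg (sub_nonneg.2 ht1) (sub_nonneg.2 ht1)),
    mul_nonneg (mul_nonneg (mul_nonneg ht0 ht0) ht0) (sub_nonneg.2 ht1),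
    mul_nonneg (mul_nonneg (mul_nonneg ht0 ht0) (mul_nonneg ht0 ht0)) (sub_nonneg.2 ht1),
    mul_nonneg (mul_nonneg (mul_nonneg ht0 ht0) (mul_nonneg ht0 (mul_nonneg ht0 ht0))) (sub_nonneg.2 ht1),
    sq_nonneg (t - 0.1)]

/-- The weights. -/
lemma weights {κ r c : ℝ} (hκ0 : 0 < κ) (hκ1 : κ < 1) (hr : 0 < r)
    (hr2 : 32 * r ^ 2 = 7 + 10 * κ - κ ^ 2) (hc0 : 0 ≤ c) (hc1 : c ≤ 1) :
    ∃ l μ q : ℝ, 0 < l ∧ 0 < μ ∧ 0 < q ∧ q ≤ 1 ∧ r ^ 2 < q ∧ μ / 4 ≤ l ∧ c ^ 2 * q < 1 ∧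
      (l * c ^ 2 + μ * ((1 - c ^ 2) ^ 2 / (1 - c ^ 2 * q))) *
        (r ^ 2 / l + r ^ 4 / μ * (1 - r ^ 2 / q)⁻¹) ≤ ((1 + κ) / 2) ^ 2 := by
  have hr12 : r ^ 2 ≤ 1 / 2 := by nlinarith
  have hr1 : r < 1 := by nlinarith
  have hr72 : 7 / 32 ≤ r ^ 2 := by nlinarith
  rcases le_or_gt c r with hcr | hcr
  · -- case A
    have hx : 0 < 1 - r ^ 2 := by linarith
    have hc2 : c ^ 2 ≤ r ^ 2 := by gcongr
    have hx' : 0 < 1 - c ^ 2 := by linarith
    refine ⟨1, r ^ 2 / (1 - r ^ 2), 1, one_pos, by positivity, one_pos, le_rfl, by linarith, ?_,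
      by linarith, ?_⟩
    · rw [div_div, div_le_one (by positivity)]
      linarith
    · have e1 : (1 * c ^ 2 + r ^ 2 / (1 - r ^ 2) * ((1 - c ^ 2) ^ 2 / (1 - c ^ 2 * 1))) *
          (r ^ 2 / 1 + r ^ 4 / (r ^ 2 / (1 - r ^ 2)) * (1 - r ^ 2 / 1)⁻¹) =
          (c ^ 2 * (1 - 2 * r ^ 2) + r ^ 2) / (1 - r ^ 2) * (2 * r ^ 2) := by
        rw [mul_one (c ^ 2), div_one]
        field_simp
        ring
      rw [e1]
      have h2 : (c ^ 2 * (1 - 2 * r ^ 2) + r ^ 2) / (1 - r ^ 2) ≤ 2 * r ^ 2 := by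
        rw [div_le_iff₀ hx]
        nlinarith
      have h3 : 2 * r ^ 2 ≤ (1 + κ) / 2 := by nlinarith [sq_nonneg (1 - κ)]
      calc (c ^ 2 * (1 - 2 * r ^ 2) + r ^ 2) / (1 - r ^ 2) * (2 * r ^ 2)
          ≤ (2 * r ^ 2) * (2 * r ^ 2) := by gcongr
        _ ≤ ((1 + κ) / 2) * ((1 + κ) / 2) := by gcongr
        _ = _ := by ring
  · have hc : 0 < c := hr.trans hcr
    have hu1 : c * r < 1 := by nlinarith
    have hu0 : 0 < c * r := by positivity
    have hq : c ^ 2 * (r / c) = c * r := by field_simp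
    have hq2 : r ^ 2 / (r / c) = c * r := by field_simp
    have hq1 : r / c ≤ 1 := by rw [div_le_one hc]; exact hcr.le
    have hq3 : r ^ 2 < r / c := by
      rw [lt_div_iff₀ hc]; nlinarith
    rcases le_or_gt (c * r) (4 * (1 - c ^ 2)) with h4 | h4
    · -- case B
      have hx : 0 < 1 - c ^ 2 := by linarith
      have hx1 : 0 < 1 - c * r := by linarith
      refine ⟨r * (1 - c ^ 2) / c, r ^ 2, r / c, by positivity, by positivity, by positivity, hq1,
        hq3, ?_, by rw [hq]; exact hu1, ?_⟩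
      · rw [le_div_iff₀ hc]
        nlinarith
      · rw [hq, hq2]
        have e1 : (r * (1 - c ^ 2) / c * c ^ 2 + r ^ 2 * ((1 - c ^ 2) ^ 2 / (1 - c * r))) *
            (r ^ 2 / (r * (1 - c ^ 2) / c) + r ^ 4 / r ^ 2 * (1 - c * r)⁻¹) =
            (c * r + r ^ 2 * (1 - c ^ 2) / (1 - c * r)) ^ 2 := by
          have : 1 - c ^ 2 ≠ 0 := hx.ne'
          field_simp
        rw [e1]
        have h5 : c * r + r ^ 2 * (1 - c ^ 2) / (1 - c * r) ≤ (1 + κ) / 2 := by
          rw [← le_sub_iff_add_le', div_le_iff₀ hx1]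
          nlinarith [sq_nonneg (c * r - (3 + κ) / 8)]
        gcongr
    · -- case C
      have hx0 : 0 ≤ 1 - c ^ 2 := by nlinarith
      have hx1 : 0 < 1 - c * r := by linarith
      refine ⟨1, 4, r / c, one_pos, by norm_num, by positivity, hq1, hq3, by norm_num,
        by rw [hq]; exact hu1, ?_⟩
      rw [hq, hq2]
      set u := c * r with hu
      set x := 1 - c ^ 2 with hx
      have hur : u ≤ r := by rw [hu]; nlinarith
      have hE : 1 * c ^ 2 + 4 * (x ^ 2 / (1 - u)) ≤ 1 + x * (2 * u - 1) / (1 - u) := by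
        have : 4 * (x ^ 2 / (1 - u)) ≤ x * u / (1 - u) := by
          rw [← mul_div_assoc]
          apply div_le_div_of_nonneg_right _ hx1.le
          have := mul_nonneg hx0 (sub_nonneg.2 h4.le)
          linarith [this, show x * (u - 4 * x) = x * u - 4 * x ^ 2 by ring]
        have e2 : 1 + x * (2 * u - 1) / (1 - u) = c ^ 2 + x * u / (1 - u) := by
          have : c ^ 2 = 1 - x := by rw [hx]; ring
          rw [this]
          field_simp
          ring
        rw [e2]; linarith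
      have hF : r ^ 2 / 1 + r ^ 4 / 4 * (1 - u)⁻¹ = r ^ 2 * (4 * (1 - u) + r ^ 2) / (4 * (1 - u)) := by
        field_simp
      have hE0 : 0 ≤ 1 * c ^ 2 + 4 * (x ^ 2 / (1 - u)) := by positivity
      have hF0 : 0 ≤ r ^ 2 / 1 + r ^ 4 / 4 * (1 - u)⁻¹ := by positivity
      rcases le_or_gt u (1 / 2) with hu2 | hu2
      · have h6 : 1 * c ^ 2 + 4 * (x ^ 2 / (1 - u)) ≤ 1 := by
          refine hE.trans ?_
          have : x * (2 * u - 1) / (1 - u) ≤ 0 :=
            div_nonpos_of_nonpos_of_nonneg (by nlinarith) hx1.le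
          linarith
        have h7 : r ^ 2 / 1 + r ^ 4 / 4 * (1 - u)⁻¹ ≤ r ^ 2 + r ^ 4 / 2 := by
          have : (1 - u)⁻¹ ≤ 2 := by
            rw [inv_le_comm₀ hx1 (by norm_num)]; linarith
          have h8 : r ^ 4 / 4 * (1 - u)⁻¹ ≤ r ^ 4 / 4 * 2 := by gcongr
          linarith
        calc (1 * c ^ 2 + 4 * (x ^ 2 / (1 - u))) * (r ^ 2 / 1 + r ^ 4 / 4 * (1 - u)⁻¹)
            ≤ 1 * (r ^ 2 + r ^ 4 / 2) := by gcongr
          _ ≤ ((1 + κ) / 2) ^ 2 := by
            have e3 : r ^ 4 = (r ^ 2) ^ 2 := by ring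
            have e4 : r ^ 2 = (7 + 10 * κ - κ ^ 2) / 32 := by linarith
            rw [e3, e4]
            have : 0 ≤ κ ^ 3 := by positivity
            nlinarith [mul_pos hκ0 hκ0, mul_nonneg (sub_nonneg.2 hκ1.le) this,
              mul_nonneg (mul_nonneg (sub_nonneg.2 hκ1.le) hκ0.le) hκ0.le]
      · have hr2' : 1 / 2 < r := hu2.trans_le hur
        have hr7 : r ≤ 0.7072 := by
          apply le_of_sq_le_sq _ (by norm_num)
          norm_num; linarith
        have hx2 : 0 < 1 - r := by linarith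
        have h6 : 1 * c ^ 2 + 4 * (x ^ 2 / (1 - u)) ≤
            (4 * (1 - r) + r * (2 * r - 1)) / (4 * (1 - r)) := by
          refine hE.trans ?_
          have h7 : x * (2 * u - 1) / (1 - u) ≤ r * (2 * r - 1) / (4 * (1 - r)) := by
            have h8 : x * (2 * u - 1) ≤ r * (2 * r - 1) / 4 := by
              have := mul_le_mul (show x ≤ r / 4 by linarith) (show 2 * u - 1 ≤ 2 * r - 1 by linarith)
                (by linarith) (by linarith)
              linarith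
            have h8' : 0 ≤ r * (2 * r - 1) / 4 := by
              have := mul_nonneg hr.le (show 0 ≤ 2 * r - 1 by linarith)
              linarith
            have h9 : x * (2 * u - 1) / (1 - u) ≤ (r * (2 * r - 1) / 4) / (1 - r) := by
              exact div_le_div₀ h8' h8 hx2 (by linarith)
            refine h9.trans (le_of_eq ?_)
            field_simp
          have e5 : (4 * (1 - r) + r * (2 * r - 1)) / (4 * (1 - r)) =
              1 + r * (2 * r - 1) / (4 * (1 - r)) := by field_simp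
          rw [e5]; linarith
        have h7 : r ^ 2 / 1 + r ^ 4 / 4 * (1 - u)⁻¹ ≤ r ^ 2 * (2 - r) ^ 2 / (4 * (1 - r)) := by
          have h8 : (1 - u)⁻¹ ≤ (1 - r)⁻¹ := by
            apply inv_anti₀ hx2; linarith
          have h9 : r ^ 4 / 4 * (1 - u)⁻¹ ≤ r ^ 4 / 4 * (1 - r)⁻¹ := by gcongr
          have e6 : r ^ 2 * (2 - r) ^ 2 / (4 * (1 - r)) = r ^ 2 / 1 + r ^ 4 / 4 * (1 - r)⁻¹ := by
            field_simp
            ring
          rw [e6]; linarith
        have hA0 : 0 ≤ (4 * (1 - r) + r * (2 * r - 1)) / (4 * (1 - r)) := by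
          have := mul_nonneg hr.le (show 0 ≤ 2 * r - 1 by linarith)
          apply div_nonneg <;> linarith
        calc (1 * c ^ 2 + 4 * (x ^ 2 / (1 - u))) * (r ^ 2 / 1 + r ^ 4 / 4 * (1 - u)⁻¹)
            ≤ (4 * (1 - r) + r * (2 * r - 1)) / (4 * (1 - r)) *
              (r ^ 2 * (2 - r) ^ 2 / (4 * (1 - r))) := by gcongr
          _ = (r ^ 2 * (2 - r) ^ 2 * (4 - 5 * r + 2 * r ^ 2)) / (16 * (1 - r) ^ 2) := by
            field_simp
            ring
          _ ≤ (2 * r - 0.465) ^ 2 := by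
            rw [div_le_iff₀ (by positivity)]
            have := poly_ineq hr2'.le hr7
            linarith
          _ ≤ ((1 + κ) / 2) ^ 2 := by
            have := tangent hκ0 hκ1 hr hr2
            apply pow_le_pow_left₀ _ this
            linarith

end Pool.Agent.Q72.BohrH
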